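import Mathlib

/-!
# Almost all pure complexes with fixed facet size are shellable

For fixed `d ≥ 3`, the proportion of shellable complexes among all pure complexes with facet size `d`
on `m` vertices tends to `1` as `m` tends to infinity.

The proof has a deterministic part and a counting part. If for all `d` sets of size `d - 1` there is
a vertex forming a facet with each of them, then the complex is shellable: start with the star of a
vertex `v` (by induction on `d`), then add for every `(d-1)`-set `A` with `A ∪ {v}` not a facet a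
facet `A ∪ {c}` such that all sets `(A \ a) ∪ {c, v}` are facets, then add all the other facets. The
extension property fails only for a proportion at most `m ^ (d (d - 1)) (1 - 2 ^ (-d)) ^ (m - d (d-1))`
of the complexes.
-/

set_option autoImplicit false

namespace Pool.Agent.Results.MP_87030c_co.AlmostAllShellable

open Finset Filter Topology

/-- The pure complex with set of facets `F` (all of size `d`) is shellable: the facets can be listed
as `L[0], L[1], ...` without repetition such that for every `j ≥ 1` all the maximal faces of the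
intersection of the complex generated by `L[j]` with the complex generated by
`L[0], ..., L[j - 1]` have exactly `d - 1` elements. -/
def IsShellable {V : Type} (d : ℕ) (F : Finset (Finset V)) : Prop :=
  ∃ L : List (Finset V), L.Nodup ∧ (∀ A, A ∈ L ↔ A ∈ F) ∧
    ∀ (j : ℕ) (hj : j < L.length), 0 < j → ∀ σ : Finset V,
      Maximal (fun σ : Finset V => σ ⊆ L[j] ∧ ∃ (i : ℕ) (_ : i < j), σ ⊆ L[i]) σ → σ.card = d - 1

/-! ### Deterministic part -/

section Det

variable {V : Type} [DecidableEq V]

/-- The facet `B` attaches well to the family `F`. -/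
def Good (d : ℕ) (F : Finset (Finset V)) (B : Finset V) : Prop :=
  ∀ σ ⊆ B, (∃ X ∈ F, σ ⊆ X) → ∃ τ, σ ⊆ τ ∧ τ ⊆ B ∧ τ.card = d - 1 ∧ ∃ X ∈ F, τ ⊆ X

/-- Inductive version of shellability. -/
inductive Sh (d : ℕ) : Finset (Finset V) → Prop
  | empty : Sh d ∅
  | step (F : Finset (Finset V)) (B : Finset V) (hF : Sh d F) (hB : B ∉ F) (hc : B.card = d)
      (hg : F.Nonempty → Good d F B) : Sh d (insert B F)

theorem sh_card {d : ℕ} {F : Finset (Finset V)} (h : Sh d F) : ∀ A ∈ F, A.card = d := by
  induction h with
  | empty => simp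
  | step F B hF hB hc hg ih =>
    intro A hA
    rcases Finset.mem_insert.1 hA with rfl | h
    · exact hc
    · exact ih A h

theorem sh_shellable {d : ℕ} {F : Finset (Finset V)} (h : Sh d F) :
    IsShellable d F := by
  induction h with
  | empty => exact ⟨[], by simp, by simp, by simp⟩
  | step F B hF hB hc hg ih =>
    obtain ⟨L, h1, h2, h3⟩ := ih
    refine ⟨L ++ [B], ?_, ?_, ?_⟩
    · rw [List.nodup_append]
      refine ⟨h1, by simp, ?_⟩
      intro a ha b hb
      rw [List.mem_singleton] at hb
      rintro rfl
      exact hB (hb ▸ (h2 a).1 ha)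
    · intro A
      rw [List.mem_append, List.mem_singleton, Finset.mem_insert, h2 A, or_comm]
    · intro j hj hj0 σ hσ
      rw [List.length_append, List.length_singleton] at hj
      by_cases hjl : j < L.length
      · refine h3 j hjl hj0 σ ?_
        have e1 : (L ++ [B])[j] = L[j] := List.getElem_append_left hjl
        have e2 : ∀ (i : ℕ) (hi : i < j), (L ++ [B])[i] = L[i] :=
          fun i hi => List.getElem_append_left (hi.trans hjl)
        have e3 : (fun σ : Finset V => σ ⊆ (L ++ [B])[j] ∧
            ∃ (i : ℕ) (_ : i < j), σ ⊆ (L ++ [B])[i]) =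
            (fun σ : Finset V => σ ⊆ L[j] ∧ ∃ (i : ℕ) (_ : i < j), σ ⊆ L[i]) := by
          funext σ
          rw [e1]
          apply propext
          constructor
          · rintro ⟨ha, i, hi, hb⟩
            exact ⟨ha, i, hi, by rw [e2 i hi] at hb; exact hb⟩
          · rintro ⟨ha, i, hi, hb⟩
            exact ⟨ha, i, hi, by rw [e2 i hi]; exact hb⟩
        rw [e3] at hσ
        exact hσ
      · have hjL : j = L.length := by omega
        subst hjL
        have e1 : (L ++ [B])[L.length] = B := by simp
        have hne : F.Nonempty := by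
          have : L[0] ∈ L := List.getElem_mem hj0
          exact ⟨_, (h2 _).1 this⟩
        obtain ⟨⟨ha, i, hi, hb⟩, hmax⟩ := hσ
        rw [e1] at ha
        rw [List.getElem_append_left hi] at hb
        obtain ⟨τ, t1, t2, t3, X, hX, t4⟩ :=
          hg hne σ ha ⟨L[i], (h2 _).1 (List.getElem_mem hi), hb⟩
        obtain ⟨k, hk, rfl⟩ := List.getElem_of_mem ((h2 X).2 hX)
        have h5 : τ ≤ σ := by
          refine hmax ⟨?_, k, hk, ?_⟩ t1
          · rw [e1]; exact t2
          · rw [List.getElem_append_left hk]; exact t4
        have h6 : τ = σ := Finset.Subset.antisymm h5 t1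
        rw [← h6, t3]

/-- Adding many facets. -/
theorem sh_union {d : ℕ} {F : Finset (Finset V)} (hF : Sh d F) (hne : F.Nonempty)
    (R : Finset (Finset V)) (hR : ∀ B ∈ R, B.card = d)
    (hg : ∀ B ∈ R, ∀ F', F ⊆ F' → F' ⊆ F ∪ R → B ∉ F' → Good d F' B) : Sh d (F ∪ R) := by
  suffices h : ∀ S : Finset (Finset V), S ⊆ R → Sh d (F ∪ S) from h R subset_rfl
  intro S
  induction S using Finset.induction_on with
  | empty => intro _; simpa using hF
  | insert B S hB ih =>
    intro hS
    have h1 := ih ((Finset.subset_insert _ _).trans hS)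
    by_cases hBF : B ∈ F
    · have : F ∪ insert B S = F ∪ S := by
        ext A
        simp only [Finset.mem_union, Finset.mem_insert]
        constructor
        · rintro (h | rfl | h)
          · exact Or.inl h
          · exact Or.inl hBF
          · exact Or.inr h
        · rintro (h | h)
          · exact Or.inl h
          · exact Or.inr (Or.inr h)
      rw [this]
      exact h1
    · have hBR : B ∈ R := hS (Finset.mem_insert_self _ _)
      have hn : B ∉ F ∪ S := by
        rw [Finset.mem_union]
        rintro (h | h)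
        · exact hBF h
        · exact hB h
      rw [Finset.union_insert]
      refine Sh.step _ _ h1 hn (hR B hBR) fun _ => ?_
      exact hg B hBR _ Finset.subset_union_left
        (Finset.union_subset_union_right ((Finset.subset_insert _ _).trans hS)) hn

/-- The star of `v`. -/
theorem sh_star {d : ℕ} {v : V} {F : Finset (Finset V)} (hF : Sh d F) (hd : 1 ≤ d)
    (hv : ∀ A ∈ F, v ∉ A) : Sh (d + 1) (F.image (insert v)) := by
  induction hF with
  | empty => simpa using Sh.empty
  | step F B hF hB hc hg ih =>
    have hv' : ∀ A ∈ F, v ∉ A := fun A hA => hv A (Finset.mem_insert_of_mem hA)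
    have hvB : v ∉ B := hv B (Finset.mem_insert_self _ _)
    rw [Finset.image_insert]
    refine Sh.step _ _ (ih hv') ?_ ?_ ?_
    · rw [Finset.mem_image]
      rintro ⟨A, hA, h⟩
      have : A = B := by
        rw [← Finset.erase_insert (hv' A hA), h, Finset.erase_insert hvB]
      exact hB (this ▸ hA)
    · rw [Finset.card_insert_of_notMem hvB, hc]
    · rintro hne σ hσ ⟨Y, hY, hσY⟩
      obtain ⟨X, hX, rfl⟩ := Finset.mem_image.1 hY
      have hne' : F.Nonempty := ⟨X, hX⟩
      have h1 : σ.erase v ⊆ B := by
        rw [← Finset.erase_insert hvB]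
        exact Finset.erase_subset_erase _ hσ
      have h2 : σ.erase v ⊆ X := by
        rw [← Finset.erase_insert (hv' X hX)]
        exact Finset.erase_subset_erase _ hσY
      obtain ⟨τ, t1, t2, t3, Z, hZ, t4⟩ := hg hne' _ h1 ⟨X, hX, h2⟩
      refine ⟨insert v τ, ?_, Finset.insert_subset_insert _ t2, ?_, insert v Z,
        Finset.mem_image_of_mem _ hZ, Finset.insert_subset_insert _ t4⟩
      · intro x hx
        by_cases hxv : x = v
        · rw [hxv]; exact Finset.mem_insert_self _ _
        · exact Finset.mem_insert_of_mem (t1 (Finset.mem_erase.2 ⟨hxv, hx⟩))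
      · rw [Finset.card_insert_of_notMem (fun h => hvB (t2 h)), t3]
        omega

/-- The extension property for `t` sets. -/
def Ext (t d : ℕ) (F : Finset (Finset V)) (U : Finset V) : Prop :=
  ∀ 𝒜 : Finset (Finset V), 𝒜.Nonempty → 𝒜.card ≤ t → (∀ A ∈ 𝒜, A ⊆ U ∧ A.card = d - 1) →
    ∃ c ∈ U, ∀ A ∈ 𝒜, c ∉ A ∧ insert c A ∈ F

theorem sh_of_ext (t : ℕ) : ∀ d : ℕ, 1 ≤ d → d ≤ t → ∀ (U : Finset V) (F : Finset (Finset V)),
    (∀ A ∈ F, A ⊆ U ∧ A.card = d) → Ext t d F U → Sh d F := by
  intro d hd
  induction d, hd using Nat.le_induction with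
  | base =>
    intro _ U F hF _
    suffices h : ∀ S : Finset (Finset V), S ⊆ F → Sh 1 S from h F subset_rfl
    intro S
    induction S using Finset.induction_on with
    | empty => intro _; exact Sh.empty
    | insert B S hB ih =>
      intro hS
      have hBF := hF B (hS (Finset.mem_insert_self _ _))
      refine Sh.step _ _ (ih ((Finset.subset_insert _ _).trans hS)) hB hBF.2 ?_
      rintro - σ hσ ⟨X, hX, hσX⟩
      refine ⟨∅, ?_, Finset.empty_subset _, by simp, X, hX, Finset.empty_subset _⟩
      have hX1 := (hF X (hS (Finset.mem_insert_of_mem hX))).2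
      intro x hx
      exfalso
      obtain ⟨b, rfl⟩ := Finset.card_eq_one.1 hBF.2
      obtain ⟨y, rfl⟩ := Finset.card_eq_one.1 hX1
      have e1 := Finset.mem_singleton.1 (hσ hx)
      have e2 := Finset.mem_singleton.1 (hσX hx)
      apply hB
      rw [← e1, e2]
      exact hX
  | succ d hd ih =>
    intro hdt U F hF hE
    rcases U.eq_empty_or_nonempty with rfl | ⟨v, hv⟩
    · have : F = ∅ := by
        rw [Finset.eq_empty_iff_forall_notMem]
        intro A hA
        have h1 := hF A hA
        rw [Finset.subset_empty] at h1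
        rw [h1.1] at h1
        simp at h1
      rw [this]
      exact Sh.empty
    · -- the link of `v`
      set F' : Finset (Finset V) := (F.filter (fun A => v ∈ A)).image (fun A => A.erase v) with hF'
      have memF' : ∀ A : Finset V, A ∈ F' ↔ v ∉ A ∧ insert v A ∈ F := by
        intro A
        rw [hF', Finset.mem_image]
        constructor
        · rintro ⟨B, hB, rfl⟩
          rw [Finset.mem_filter] at hB
          refine ⟨Finset.notMem_erase _ _, ?_⟩
          rw [Finset.insert_erase hB.2]
          exact hB.1
        · rintro ⟨h1, h2⟩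
          refine ⟨insert v A, ?_, Finset.erase_insert h1⟩
          rw [Finset.mem_filter]
          exact ⟨h2, Finset.mem_insert_self _ _⟩
      have hlink : ∀ A ∈ F', A ⊆ U.erase v ∧ A.card = d := by
        intro A hA
        obtain ⟨h1, h2⟩ := (memF' A).1 hA
        have h3 := hF _ h2
        constructor
        · intro x hx
          refine Finset.mem_erase.2 ⟨fun h => h1 (h ▸ hx), h3.1 (Finset.mem_insert_of_mem hx)⟩
        · have := h3.2
          rw [Finset.card_insert_of_notMem h1] at this
          omega
      have hElink : Ext t d F' (U.erase v) := by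
        intro 𝒜 hne hcard h𝒜
        have hv𝒜 : ∀ A ∈ 𝒜, v ∉ A := fun A hA h => (Finset.mem_erase.1 ((h𝒜 A hA).1 h)).1 rfl
        obtain ⟨c, hcU, hc⟩ := hE (𝒜.image (insert v)) (hne.image _)
          (Finset.card_image_le.trans hcard) (by
            intro B hB
            obtain ⟨A, hA, rfl⟩ := Finset.mem_image.1 hB
            refine ⟨Finset.insert_subset hv ((h𝒜 A hA).1.trans (Finset.erase_subset _ _)), ?_⟩
            rw [Finset.card_insert_of_notMem (hv𝒜 A hA), (h𝒜 A hA).2]
            omega)
        have hcv : c ≠ v := by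
          obtain ⟨A, hA⟩ := hne
          rintro rfl
          exact (hc _ (Finset.mem_image_of_mem _ hA)).1 (Finset.mem_insert_self _ _)
        refine ⟨c, Finset.mem_erase.2 ⟨hcv, hcU⟩, ?_⟩
        intro A hA
        obtain ⟨h1, h2⟩ := hc _ (Finset.mem_image_of_mem _ hA)
        refine ⟨fun h => h1 (Finset.mem_insert_of_mem h), (memF' _).2 ⟨?_, ?_⟩⟩
        · rw [Finset.mem_insert]
          rintro (h | h)
          · exact hcv h.symm
          · exact hv𝒜 A hA h
        · rw [Finset.insert_comm]
          exact h2
      have hSlink : Sh d F' := ih (by omega) _ _ hlink hElink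
      have hstar : Sh (d + 1) (F'.image (insert v)) :=
        sh_star hSlink hd (fun A hA => ((memF' A).1 hA).1)
      set G : Finset (Finset V) := F'.image (insert v) with hG
      have memG : ∀ A : Finset V, A ∈ G ↔ v ∈ A ∧ A ∈ F := by
        intro A
        rw [hG, Finset.mem_image]
        constructor
        · rintro ⟨B, hB, rfl⟩
          exact ⟨Finset.mem_insert_self _ _, ((memF' B).1 hB).2⟩
        · rintro ⟨h1, h2⟩
          refine ⟨A.erase v, (memF' _).2 ⟨Finset.notMem_erase _ _, ?_⟩, Finset.insert_erase h1⟩
          rw [Finset.insert_erase h1]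
          exact h2
      by_cases hFne : F.Nonempty
      swap
      · rw [Finset.not_nonempty_iff_eq_empty.1 hFne]
        exact Sh.empty
      -- the star is not empty
      have hGne : G.Nonempty := by
        obtain ⟨B, hB⟩ := hFne
        -- a `d`-subset of `U` containing `v`
        obtain ⟨A, hAv, hAU, hAc⟩ : ∃ A : Finset V, v ∈ A ∧ A ⊆ U ∧ A.card = d := by
          have h1 : ({v} : Finset V) ⊆ U := Finset.singleton_subset_iff.2 hv
          have h2 : ({v} : Finset V).card ≤ d := by rw [Finset.card_singleton]; exact hd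
          have h3 : d ≤ U.card := by
            have h4 := hF B hB
            have h5 := Finset.card_le_card h4.1
            omega
          obtain ⟨A, hA1, hA2, hA3⟩ := Finset.exists_subsuperset_card_eq h1 h2 h3
          exact ⟨A, hA1 (Finset.mem_singleton_self v), hA2, hA3⟩
        obtain ⟨c, -, hc⟩ := hE {A} (Finset.singleton_nonempty _)
          (by rw [Finset.card_singleton]; omega) (by
            intro A' hA'
            rw [Finset.mem_singleton.1 hA']
            exact ⟨hAU, by omega⟩)
        exact ⟨_, (memG _).2 ⟨Finset.mem_insert_of_mem hAv,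
          (hc A (Finset.mem_singleton_self _)).2⟩⟩
      -- second stage
      have hstage : ∀ A : Finset V, A ⊆ U → A.card = d → v ∉ A → insert v A ∉ F →
          ∃ c ∈ U, c ∉ A ∧ c ≠ v ∧ insert c A ∈ F ∧
            ∀ a ∈ A, insert v (insert c (A.erase a)) ∈ F := by
        intro A hAU hAc hvA hAF
        have hAne : A.Nonempty := by
          rw [← Finset.card_pos]; omega
        obtain ⟨c, hcU, hc⟩ := hE (insert A (A.image (fun a => insert v (A.erase a))))
          (Finset.insert_nonempty _ _)
          (by
            refine (Finset.card_insert_le _ _).trans ?_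
            have := Finset.card_image_le (s := A) (f := fun a => insert v (A.erase a))
            omega)
          (by
            intro B hB
            rcases Finset.mem_insert.1 hB with rfl | hB
            · exact ⟨hAU, by omega⟩
            · obtain ⟨a, ha, rfl⟩ := Finset.mem_image.1 hB
              constructor
              · exact Finset.insert_subset hv ((Finset.erase_subset _ _).trans hAU)
              · rw [Finset.card_insert_of_notMem (fun h => hvA (Finset.mem_of_mem_erase h)),
                  Finset.card_erase_of_mem ha]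
                omega)
        have h1 := hc A (Finset.mem_insert_self _ _)
        have h2 : ∀ a ∈ A, c ∉ insert v (A.erase a) ∧ insert c (insert v (A.erase a)) ∈ F :=
          fun a ha => hc _ (Finset.mem_insert_of_mem (Finset.mem_image_of_mem _ ha))
        obtain ⟨a₀, ha₀⟩ := hAne
        refine ⟨c, hcU, h1.1, ?_, h1.2, ?_⟩
        · intro h
          exact (h2 a₀ ha₀).1 (Finset.mem_insert.2 (Or.inl h))
        · intro a ha
          rw [Finset.insert_comm]
          exact (h2 a ha).2
      have : Nonempty V := ⟨v⟩
      choose! cc hcc using hstage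
      set M : Finset (Finset V) :=
        (U.powerset.filter (fun A => A.card = d ∧ v ∉ A ∧ insert v A ∉ F)) with hM
      have memM : ∀ A, A ∈ M ↔ A ⊆ U ∧ A.card = d ∧ v ∉ A ∧ insert v A ∉ F := by
        intro A
        rw [hM, Finset.mem_filter, Finset.mem_powerset]
      set R : Finset (Finset V) := M.image (fun A => insert (cc A) A) with hR
      have hS2 : Sh (d + 1) (G ∪ R) := by
        refine sh_union hstar hGne R ?_ ?_
        · intro B hB
          obtain ⟨A, hA, rfl⟩ := Finset.mem_image.1 hB
          obtain ⟨h1, h2, h3, h4⟩ := (memM A).1 hA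
          obtain ⟨-, h5, -⟩ := hcc A h1 h2 h3 h4
          rw [Finset.card_insert_of_notMem h5, h2]
        · intro B hB F'' hF1 hF2 hBF''
          obtain ⟨A, hA, rfl⟩ := Finset.mem_image.1 hB
          obtain ⟨h1, h2, h3, h4⟩ := (memM A).1 hA
          obtain ⟨h5, h6, h7, h8, h9⟩ := hcc A h1 h2 h3 h4
          intro σ hσ hX
          by_cases hσA : A ⊆ σ
          · -- then `σ = A`
            have hne : cc A ∉ σ := by
              intro hc
              obtain ⟨X, hX1, hX2⟩ := hX
              have h10 : insert (cc A) A ⊆ X :=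
                Finset.insert_subset (hX2 hc) (hσA.trans hX2)
              have h11 : X.card = d + 1 := by
                rcases Finset.mem_union.1 (hF2 hX1) with h | h
                · exact (hF X ((memG X).1 h).2).2
                · obtain ⟨A', hA', rfl⟩ := Finset.mem_image.1 h
                  obtain ⟨k1, k2, k3, k4⟩ := (memM A').1 hA'
                  obtain ⟨-, k5, -⟩ := hcc A' k1 k2 k3 k4
                  rw [Finset.card_insert_of_notMem k5, k2]
              have h12 : (insert (cc A) A).card = d + 1 := by
                rw [Finset.card_insert_of_notMem h6, h2]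
              have h13 : insert (cc A) A = X := Finset.eq_of_subset_of_card_le h10 (by omega)
              exact hBF'' (h13 ▸ hX1)
            have h10 : σ = A := by
              apply Finset.Subset.antisymm _ hσA
              intro x hx
              rcases Finset.mem_insert.1 (hσ hx) with rfl | h
              · exact absurd hx hne
              · exact h
            refine ⟨σ, subset_rfl, hσ, ?_, hX⟩
            rw [h10, h2]
            omega
          · obtain ⟨a, haA, haσ⟩ := Finset.not_subset.1 hσA
            refine ⟨insert (cc A) (A.erase a), ?_, ?_, ?_, insert v (insert (cc A) (A.erase a)),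
              hF1 ((memG _).2 ⟨Finset.mem_insert_self _ _, h9 a haA⟩), Finset.subset_insert _ _⟩
            · intro x hx
              rcases Finset.mem_insert.1 (hσ hx) with rfl | h
              · exact Finset.mem_insert_self _ _
              · exact Finset.mem_insert_of_mem (Finset.mem_erase.2 ⟨fun h' => haσ (h' ▸ hx), h⟩)
            · exact Finset.insert_subset_insert _ (Finset.erase_subset _ _)
            · rw [Finset.card_insert_of_notMem (fun h => h6 (Finset.mem_of_mem_erase h)),
                Finset.card_erase_of_mem haA]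
              omega
      have hRF : R ⊆ F := by
        intro B hB
        obtain ⟨A, hA, rfl⟩ := Finset.mem_image.1 hB
        obtain ⟨h1, h2, h3, h4⟩ := (memM A).1 hA
        obtain ⟨h5, h6, h7, h8, h9⟩ := hcc A h1 h2 h3 h4
        exact h8
      have hGF : G ⊆ F := fun A hA => ((memG A).1 hA).2
      have hfin : (G ∪ R) ∪ F = F := Finset.union_eq_right.2 (Finset.union_subset hGF hRF)
      rw [← hfin]
      refine sh_union hS2 (hGne.mono Finset.subset_union_left) F (fun B hB => (hF B hB).2) ?_
      intro B hB F'' hF1 hF2 hBF'' σ hσ hX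
      have hvB : v ∉ B := fun h => hBF'' (hF1 (Finset.mem_union_left _ ((memG B).2 ⟨h, hB⟩)))
      have hσB : σ ≠ B := by
        rintro rfl
        obtain ⟨X, hX1, hX2⟩ := hX
        have h1 : X ∈ F := by
          have := hF2 hX1
          rw [hfin] at this
          exact this
        have h2 : σ = X := Finset.eq_of_subset_of_card_le hX2 (by
          rw [(hF X h1).2, (hF σ hB).2])
        exact hBF'' (h2 ▸ hX1)
      obtain ⟨b, hbB, hbσ⟩ := Finset.exists_of_ssubset (Finset.ssubset_iff_subset_ne.2 ⟨hσ, hσB⟩)
      have hc : (B.erase b).card = d := by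
        rw [Finset.card_erase_of_mem hbB, (hF B hB).2]
        omega
      refine ⟨B.erase b, ?_, Finset.erase_subset _ _, by omega, ?_⟩
      · intro x hx
        exact Finset.mem_erase.2 ⟨fun h => hbσ (h ▸ hx), hσ hx⟩
      · by_cases hm : insert v (B.erase b) ∈ F
        · exact ⟨_, hF1 (Finset.mem_union_left _ ((memG _).2 ⟨Finset.mem_insert_self _ _, hm⟩)),
            Finset.subset_insert _ _⟩
        · refine ⟨insert (cc (B.erase b)) (B.erase b), hF1 (Finset.mem_union_right _ ?_),
            Finset.subset_insert _ _⟩
          rw [hR]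
          refine Finset.mem_image_of_mem (fun A => insert (cc A) A) ((memM _).2 ⟨?_, hc, ?_, hm⟩)
          · exact (Finset.erase_subset _ _).trans (hF B hB).1
          · exact fun h => hvB (Finset.mem_of_mem_erase h)

end Det

/-! ### Counting part -/

section Count

/-- The subsets of `X` with the property `p`. -/
noncomputable def sub {α : Type} (X : Finset α) (p : Finset α → Prop) : Finset (Finset α) :=
  @Finset.filter _ p (Classical.decPred p) X.powerset

theorem mem_sub {α : Type} {X : Finset α} {p : Finset α → Prop} {F : Finset α} :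
    F ∈ sub X p ↔ F ⊆ X ∧ p F := by
  classical
  unfold sub
  rw [Finset.mem_filter, Finset.mem_powerset]

theorem sub_true {α : Type} {X : Finset α} {p : Finset α → Prop} (hp : ∀ F, p F) :
    sub X p = X.powerset := by
  ext F
  rw [mem_sub, Finset.mem_powerset]
  exact ⟨fun h => h.1, fun h => ⟨h, hp F⟩⟩

/-- The number of subsets of `X` containing none of the disjoint sets `T c`, `c ∈ C`. -/
theorem count_avoid {α ι : Type} [DecidableEq α] [DecidableEq ι] (t : ℕ) (T : ι → Finset α)
    (C : Finset ι) :
    ∀ X : Finset α, (∀ c ∈ C, T c ⊆ X ∧ (T c).card ≤ t) →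
      (∀ c ∈ C, ∀ c' ∈ C, c ≠ c' → Disjoint (T c) (T c')) →
      ((sub X (fun F => ∀ c ∈ C, ¬ T c ⊆ F)).card : ℝ) ≤
        2 ^ X.card * (1 - 1 / 2 ^ t) ^ C.card := by
  induction C using Finset.induction_on with
  | empty =>
    intro X _ _
    rw [sub_true (by simp), Finset.card_powerset, Finset.card_empty, pow_zero, mul_one]
    push_cast
    exact le_rfl
  | insert c C hc ih =>
    intro X h1 h2
    have hT := h1 c (Finset.mem_insert_self _ _)
    have h3 := ih (X \ T c) (by
      intro c' hc'
      refine ⟨?_, (h1 c' (Finset.mem_insert_of_mem hc')).2⟩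
      intro x hx
      rw [Finset.mem_sdiff]
      refine ⟨(h1 c' (Finset.mem_insert_of_mem hc')).1 hx, ?_⟩
      intro hx'
      have hne : c ≠ c' := fun h => hc (h ▸ hc')
      exact Finset.disjoint_left.1 (h2 c (Finset.mem_insert_self _ _) c'
        (Finset.mem_insert_of_mem hc') hne) hx' hx)
      (fun a ha b hb hab => h2 a (Finset.mem_insert_of_mem ha) b (Finset.mem_insert_of_mem hb) hab)
    have h4 : (sub X (fun F => ∀ c' ∈ insert c C, ¬ T c' ⊆ F)).card ≤
        ((T c).powerset.erase (T c) ×ˢ
          (sub (X \ T c) (fun F => ∀ c' ∈ C, ¬ T c' ⊆ F))).card := by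
      apply Finset.card_le_card_of_injOn (fun F => (F ∩ T c, F \ T c))
      · intro F hF
        have hF' := mem_sub.1 (Finset.mem_coe.1 hF)
        simp only [Finset.coe_product, Set.mem_prod, Finset.mem_coe]
        constructor
        · rw [Finset.mem_erase, Finset.mem_powerset]
          refine ⟨?_, Finset.inter_subset_right⟩
          intro h
          exact hF'.2 c (Finset.mem_insert_self _ _) (Finset.inter_eq_right.1 h)
        · rw [mem_sub]
          refine ⟨Finset.sdiff_subset_sdiff hF'.1 subset_rfl, ?_⟩
          intro c' hc' h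
          exact hF'.2 c' (Finset.mem_insert_of_mem hc') (h.trans Finset.sdiff_subset)
      · intro F _ F' _ h
        rw [Prod.mk.injEq] at h
        rw [← Finset.sdiff_union_inter F (T c), ← Finset.sdiff_union_inter F' (T c), h.1, h.2]
    have h5 : (((T c).powerset.erase (T c)).card : ℝ) = 2 ^ (T c).card - 1 := by
      rw [Finset.card_erase_of_mem (Finset.mem_powerset.2 subset_rfl), Finset.card_powerset,
        Nat.cast_sub Nat.one_le_two_pow]
      push_cast
      rfl
    have h6 : ((sub X (fun F => ∀ c' ∈ insert c C, ¬ T c' ⊆ F)).card : ℝ) ≤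
        (2 ^ (T c).card - 1) * (2 ^ (X \ T c).card * (1 - 1 / 2 ^ t) ^ C.card) := by
      calc ((sub X (fun F => ∀ c' ∈ insert c C, ¬ T c' ⊆ F)).card : ℝ)
          ≤ ((((T c).powerset.erase (T c) ×ˢ
          (sub (X \ T c) (fun F => ∀ c' ∈ C, ¬ T c' ⊆ F))).card : ℕ) : ℝ) := by
            exact_mod_cast h4
        _ = (2 ^ (T c).card - 1) *
            ((sub (X \ T c) (fun F => ∀ c' ∈ C, ¬ T c' ⊆ F)).card : ℝ) := by
            rw [Finset.card_product, Nat.cast_mul, h5]
        _ ≤ _ := by
            apply mul_le_mul_of_nonneg_left h3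
            have : (1 : ℝ) ≤ 2 ^ (T c).card := one_le_pow₀ (by norm_num)
            linarith
    refine h6.trans ?_
    have h7 : X.card = (T c).card + (X \ T c).card := by
      have := Finset.card_sdiff_add_card_eq_card hT.1
      omega
    have h8 : (0 : ℝ) ≤ 1 - 1 / 2 ^ t := by
      have : (1 : ℝ) / 2 ^ t ≤ 1 := by
        rw [div_le_one (by positivity)]
        exact one_le_pow₀ (by norm_num)
      linarith
    have h9 : (2 : ℝ) ^ (T c).card - 1 ≤ 2 ^ (T c).card * (1 - 1 / 2 ^ t) := by
      have h10 : (2 : ℝ) ^ (T c).card / 2 ^ t ≤ 1 := by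
        rw [div_le_one (by positivity)]
        exact pow_le_pow_right₀ (by norm_num) hT.2
      have h11 : (2 : ℝ) ^ (T c).card * (1 - 1 / 2 ^ t) =
          2 ^ (T c).card - 2 ^ (T c).card / 2 ^ t := by ring
      rw [h11]
      linarith
    rw [Finset.card_insert_of_notMem hc, h7, pow_add, pow_succ]
    calc ((2 : ℝ) ^ (T c).card - 1) * (2 ^ (X \ T c).card * (1 - 1 / 2 ^ t) ^ C.card)
        ≤ (2 ^ (T c).card * (1 - 1 / 2 ^ t)) *
          (2 ^ (X \ T c).card * (1 - 1 / 2 ^ t) ^ C.card) := by
          apply mul_le_mul_of_nonneg_right h9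
          positivity
      _ = _ := by ring

/-- The number of families without the extension property. -/
theorem count_not_ext (d m : ℕ) (hd : 1 ≤ d) :
    ((sub (powersetCard d (univ : Finset (Fin m))) (fun F => ¬ Ext d d F univ)).card : ℝ) ≤
      (m : ℝ) ^ ((d - 1) * d) * (2 ^ (powersetCard d (univ : Finset (Fin m))).card *
        (1 - 1 / 2 ^ d) ^ (m - d * (d - 1))) := by
  set X := powersetCard d (univ : Finset (Fin m)) with hX
  set Φ : Finset (Fin d → Finset (Fin m)) :=
    Fintype.piFinset (fun _ : Fin d => powersetCard (d - 1) (univ : Finset (Fin m))) with hΦ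
  set W : (Fin d → Finset (Fin m)) → Finset (Fin m) := fun a => univ.biUnion a with hW
  set T : (Fin d → Finset (Fin m)) → Fin m → Finset (Finset (Fin m)) :=
    fun a c => univ.image (fun i => insert c (a i)) with hT
  set bad : (Fin d → Finset (Fin m)) → Finset (Finset (Finset (Fin m))) :=
    fun a => sub X (fun F => ∀ c ∈ univ \ W a, ¬ T a c ⊆ F) with hbad
  have h1 : sub X (fun F => ¬ Ext d d F univ) ⊆ Φ.biUnion bad := by
    intro F hF
    rw [mem_sub] at hF
    obtain ⟨hFX, hE⟩ := hF
    unfold Ext at hE
    push Not at hE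
    obtain ⟨𝒜, hne, hcard, h𝒜, hno⟩ := hE
    -- enumerate `𝒜`
    obtain ⟨A₀, hA₀⟩ := hne
    let a : Fin d → Finset (Fin m) := fun i =>
      if h : i.1 < 𝒜.card then (𝒜.equivFin.symm ⟨i.1, h⟩ : Finset (Fin m)) else A₀
    have ha : ∀ i, a i ∈ 𝒜 := by
      intro i
      by_cases h : i.1 < 𝒜.card
      · simp only [a, dif_pos h]
        exact (𝒜.equivFin.symm ⟨i.1, h⟩).2
      · simp only [a, dif_neg h]
        exact hA₀
    have hsurj : ∀ A ∈ 𝒜, ∃ i, a i = A := by
      intro A hA
      have h1 := (𝒜.equivFin ⟨A, hA⟩).2
      refine ⟨⟨(𝒜.equivFin ⟨A, hA⟩).1, lt_of_lt_of_le h1 hcard⟩, ?_⟩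
      simp only [a, dif_pos h1]
      simp
    rw [Finset.mem_biUnion]
    refine ⟨a, ?_, ?_⟩
    · rw [hΦ, Fintype.mem_piFinset]
      intro i
      rw [Finset.mem_powersetCard]
      exact ⟨Finset.subset_univ _, (h𝒜 _ (ha i)).2⟩
    · rw [hbad, mem_sub]
      refine ⟨hFX, ?_⟩
      intro c hc hcT
      rw [Finset.mem_sdiff, hW, Finset.mem_biUnion] at hc
      obtain ⟨A, hA, h2⟩ := hno c (Finset.mem_univ _)
      obtain ⟨i, rfl⟩ := hsurj A hA
      refine h2 ?_ (hcT (Finset.mem_image_of_mem _ (Finset.mem_univ i)))
      intro h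
      exact hc.2 ⟨i, Finset.mem_univ _, h⟩
  have h2 : ∀ a ∈ Φ, ((bad a).card : ℝ) ≤ 2 ^ X.card * (1 - 1 / 2 ^ d) ^ (m - d * (d - 1)) := by
    intro a ha
    rw [hΦ, Fintype.mem_piFinset] at ha
    have ha' : ∀ i, (a i).card = d - 1 := fun i => (Finset.mem_powersetCard.1 (ha i)).2
    have hmem : ∀ c ∈ univ \ W a, ∀ i, c ∉ a i := by
      intro c hc i h
      rw [Finset.mem_sdiff, hW, Finset.mem_biUnion] at hc
      exact hc.2 ⟨i, Finset.mem_univ _, h⟩
    have h3 := count_avoid d (T a) (univ \ W a) X (by
      intro c hc
      constructor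
      · intro B hB
        obtain ⟨i, -, rfl⟩ := Finset.mem_image.1 hB
        rw [hX, Finset.mem_powersetCard]
        refine ⟨Finset.subset_univ _, ?_⟩
        rw [Finset.card_insert_of_notMem (hmem c hc i), ha' i]
        omega
      · refine Finset.card_image_le.trans ?_
        simp) (by
      intro c hc c' hc' hcc
      rw [Finset.disjoint_left]
      intro B hB hB'
      obtain ⟨i, -, rfl⟩ := Finset.mem_image.1 hB
      obtain ⟨i', -, h⟩ := Finset.mem_image.1 hB'
      have h4 : c ∈ insert c' (a i') := by rw [h]; exact Finset.mem_insert_self _ _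
      rcases Finset.mem_insert.1 h4 with h5 | h5
      · exact hcc h5
      · exact hmem c hc i' h5)
    refine h3.trans ?_
    apply mul_le_mul_of_nonneg_left _ (by positivity)
    have h5 : (0 : ℝ) ≤ 1 - 1 / 2 ^ d := by
      have : (1 : ℝ) / 2 ^ d ≤ 1 := by
        rw [div_le_one (by positivity)]
        exact one_le_pow₀ (by norm_num)
      linarith
    apply pow_le_pow_of_le_one h5
    · have : (0 : ℝ) ≤ 1 / 2 ^ d := by positivity
      linarith
    · have h6 : (W a).card ≤ d * (d - 1) := by
        refine Finset.card_biUnion_le.trans ?_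
        rw [Finset.sum_congr rfl (fun i _ => ha' i)]
        simp
      have h7 : (univ \ W a).card = m - (W a).card := by
        rw [Finset.card_sdiff_of_subset (Finset.subset_univ _)]
        simp
      omega
  have h3 : (Φ.card : ℝ) ≤ (m : ℝ) ^ ((d - 1) * d) := by
    have h4 : Φ.card = (m.choose (d - 1)) ^ d := by
      rw [hΦ, Fintype.card_piFinset]
      simp
    rw [h4, pow_mul]
    push_cast
    apply pow_le_pow_left₀ (by positivity)
    exact_mod_cast Nat.choose_le_pow _ _
  calc ((sub X (fun F => ¬ Ext d d F univ)).card : ℝ)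
      ≤ ((Φ.biUnion bad).card : ℝ) := by exact_mod_cast Finset.card_le_card h1
    _ ≤ ((∑ a ∈ Φ, (bad a).card : ℕ) : ℝ) := by exact_mod_cast Finset.card_biUnion_le
    _ = ∑ a ∈ Φ, ((bad a).card : ℝ) := by push_cast; rfl
    _ ≤ ∑ a ∈ Φ, (2 ^ X.card * (1 - 1 / 2 ^ d) ^ (m - d * (d - 1)) : ℝ) := Finset.sum_le_sum h2
    _ = (Φ.card : ℝ) * (2 ^ X.card * (1 - 1 / 2 ^ d) ^ (m - d * (d - 1))) := by
        rw [Finset.sum_const, nsmul_eq_mul]
    _ ≤ _ := by
        apply mul_le_mul_of_nonneg_right h3
        have h5 : (0 : ℝ) ≤ 1 - 1 / 2 ^ d := by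
          have : (1 : ℝ) / 2 ^ d ≤ 1 := by
            rw [div_le_one (by positivity)]
            exact one_le_pow₀ (by norm_num)
          linarith
        positivity

end Count

/-- **Theorem.** For every fixed `d ≥ 3`, almost all pure complexes with facet size `d` are
shellable: the proportion of shellable ones among all collections of `d`-subsets of an `m`-element
set tends to `1` as `m` tends to infinity. -/
theorem result (d : ℕ) (hd : 3 ≤ d) :
    Tendsto (fun m : ℕ =>
      (Nat.card {F : Finset (Finset (Fin m)) // (∀ A ∈ F, A.card = d) ∧ IsShellable d F} : ℝ) /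
        Nat.card {F : Finset (Finset (Fin m)) // ∀ A ∈ F, A.card = d}) atTop (𝓝 1) := by
  classical
  have hd1 : 1 ≤ d := by omega
  set q : ℝ := 1 - 1 / 2 ^ d with hq
  have hq0 : 0 < q := by
    have : (1 : ℝ) / 2 ^ d < 1 := by
      rw [div_lt_one (by positivity)]
      exact one_lt_pow₀ (by norm_num) (by omega)
    linarith
  have hq1 : q < 1 := by
    have : (0 : ℝ) < 1 / 2 ^ d := by positivity
    linarith
  set K : ℕ := d * (d - 1) with hK
  set K' : ℕ := (d - 1) * d with hK'
  -- the denominators
  have hden : ∀ m : ℕ, (Nat.card {F : Finset (Finset (Fin m)) // ∀ A ∈ F, A.card = d} : ℝ) =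
      2 ^ (powersetCard d (univ : Finset (Fin m))).card := by
    intro m
    rw [Nat.card_eq_fintype_card, Fintype.card_subtype]
    have : (univ.filter (fun F : Finset (Finset (Fin m)) => ∀ A ∈ F, A.card = d)) =
        (powersetCard d (univ : Finset (Fin m))).powerset := by
      ext F
      simp only [Finset.mem_filter, Finset.mem_univ, true_and, Finset.mem_powerset]
      constructor
      · intro h A hA
        rw [Finset.mem_powersetCard]
        exact ⟨Finset.subset_univ _, h A hA⟩
      · intro h A hA
        exact (Finset.mem_powersetCard.1 (h hA)).2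
    rw [this, Finset.card_powerset]
    push_cast
    rfl
  -- the lower bound
  have hlow : ∀ m : ℕ, 1 - (m : ℝ) ^ K' * q ^ m / q ^ K ≤
      (Nat.card {F : Finset (Finset (Fin m)) // (∀ A ∈ F, A.card = d) ∧ IsShellable d F} : ℝ) /
        Nat.card {F : Finset (Finset (Fin m)) // ∀ A ∈ F, A.card = d} := by
    intro m
    rw [hden m]
    set X := powersetCard d (univ : Finset (Fin m)) with hX
    have h1 : (sub X (fun F => Ext d d F univ)).card ≤
        Nat.card {F : Finset (Finset (Fin m)) // (∀ A ∈ F, A.card = d) ∧ IsShellable d F} := by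
      rw [Nat.card_eq_fintype_card, Fintype.card_subtype]
      apply Finset.card_le_card
      intro F hF
      rw [mem_sub] at hF
      rw [Finset.mem_filter]
      have h2 : ∀ A ∈ F, A.card = d := fun A hA => (Finset.mem_powersetCard.1 (hF.1 hA)).2
      exact ⟨Finset.mem_univ _, h2, sh_shellable
        (sh_of_ext d d hd1 le_rfl univ F (fun A hA => ⟨Finset.subset_univ _, h2 A hA⟩) hF.2)⟩
    have h2 : (sub X (fun F => Ext d d F univ)).card +
        (sub X (fun F => ¬ Ext d d F univ)).card = 2 ^ X.card := by
      rw [← Finset.card_powerset, ← Finset.card_union_of_disjoint]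
      · congr 1
        ext F
        rw [Finset.mem_union, mem_sub, mem_sub, Finset.mem_powerset]
        tauto
      · rw [Finset.disjoint_left]
        intro F h h'
        exact (mem_sub.1 h').2 (mem_sub.1 h).2
    have h3 := count_not_ext d m hd1
    rw [← hX, ← hq, ← hK, ← hK'] at h3
    have h4 : q ^ (m - K) ≤ q ^ m / q ^ K := by
      rw [le_div_iff₀ (by positivity), ← pow_add]
      exact pow_le_pow_of_le_one hq0.le hq1.le (by omega)
    rw [le_div_iff₀ (by positivity)]
    have h5 : ((sub X (fun F => Ext d d F univ)).card : ℝ) ≤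
        Nat.card {F : Finset (Finset (Fin m)) // (∀ A ∈ F, A.card = d) ∧ IsShellable d F} := by
      exact_mod_cast h1
    have h6 : ((sub X (fun F => Ext d d F univ)).card : ℝ) +
        ((sub X (fun F => ¬ Ext d d F univ)).card : ℝ) = 2 ^ X.card := by
      exact_mod_cast h2
    have h7 : (m : ℝ) ^ K' * (2 ^ X.card * q ^ (m - K)) ≤
        (m : ℝ) ^ K' * (2 ^ X.card * (q ^ m / q ^ K)) := by
      gcongr
    calc (1 - (m : ℝ) ^ K' * q ^ m / q ^ K) * 2 ^ X.card
        = 2 ^ X.card - (m : ℝ) ^ K' * (2 ^ X.card * (q ^ m / q ^ K)) := by ring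
      _ ≤ 2 ^ X.card - ((sub X (fun F => ¬ Ext d d F univ)).card : ℝ) := by
          linarith
      _ = ((sub X (fun F => Ext d d F univ)).card : ℝ) := by linarith
      _ ≤ _ := h5
  have hup : ∀ m : ℕ,
      (Nat.card {F : Finset (Finset (Fin m)) // (∀ A ∈ F, A.card = d) ∧ IsShellable d F} : ℝ) /
        Nat.card {F : Finset (Finset (Fin m)) // ∀ A ∈ F, A.card = d} ≤ 1 := by
    intro m
    apply div_le_one_of_le₀ _ (by positivity)
    have : Nat.card {F : Finset (Finset (Fin m)) // (∀ A ∈ F, A.card = d) ∧ IsShellable d F} ≤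
        Nat.card {F : Finset (Finset (Fin m)) // ∀ A ∈ F, A.card = d} :=
      Nat.card_le_card_of_injective
        (fun F => (⟨F.1, F.2.1⟩ : {F : Finset (Finset (Fin m)) // ∀ A ∈ F, A.card = d}))
        (fun F G h => Subtype.ext (congrArg (fun t => t.1) h))
    exact_mod_cast this
  have hlim : Tendsto (fun m : ℕ => 1 - (m : ℝ) ^ K' * q ^ m / q ^ K) atTop (𝓝 1) := by
    have h1 : Tendsto (fun m : ℕ => (m : ℝ) ^ K' * q ^ m) atTop (𝓝 0) :=
      tendsto_pow_const_mul_const_pow_of_abs_lt_one K' (by rw [abs_of_pos hq0]; exact hq1)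
    have h2 := (h1.div_const (q ^ K)).const_sub 1
    simpa using h2
  exact tendsto_of_tendsto_of_tendsto_of_le_of_le hlim tendsto_const_nhds hlow hup

end Pool.Agent.Results.MP_87030c_co.AlmostAllShellable
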